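import Mathlib
import Pool.Agent.Run7.h861.Chain

set_option autoImplicit false

/-!
# The second osculating curve of a convex curve in five-dimensional projective space

The case `k = 3`, `n = 6` of the problem: the curve of osculating planes of a convex curve meets
every Grassmann hyperplane with total multiplicity at most nine.
-/

namespace Pool.Agent.Results.MP_5fea31_an.OscThreeSix

open Run7.h861

theorem result :
    ∀ J : Set ℝ, ∀ γ : ℝ → (Fin (3 + 3) → ℝ),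
      ContDiff ℝ (⊤ : ℕ∞) γ →
      J.OrdConnected →
      (∀ t ∈ J, γ t ≠ 0) →
      (∀ a : Fin (3 + 3) → ℝ, a ≠ 0 →
        ∀ (s : Finset ℝ) (μ : ℝ → ℕ),
          (∀ t ∈ s, t ∈ J ∧ ∀ j < μ t,
            iteratedDeriv j (fun u => ∑ i, a i * γ u i) t = 0) →
          ∑ t ∈ s, μ t ≤ 3 + 3 - 1) →
      ∀ ℓ : Fin 3 → (Fin (3 + 3) → ℝ), LinearIndependent ℝ ℓ →
        ∀ (s : Finset ℝ) (μ : ℝ → ℕ),
          (∀ t ∈ s, t ∈ J ∧ ∀ j < μ t,
            iteratedDeriv j
              (fun u => (Matrix.of (fun i c =>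
                Fin.append (fun a : Fin 3 => iteratedDeriv (a : ℕ) γ u) ℓ c i)).det) t = 0) →
          ∑ t ∈ s, μ t ≤ 3 * 3 := by
  intro J γ hγ hJ _ hconv ℓ hℓ s μ hs
  have hc : Conv γ J := fun a ha s μ h => hconv a ha s μ h
  obtain ⟨P, ⟨C, hC, hdet⟩, hsurj⟩ := exists_P hℓ
  have hT : ∀ τ ∈ s, ∃ I : Fin 3 → ℕ, TypeS (wP P γ) τ I ∧ ∀ c, I c < 6 := fun τ hτ =>
    exists_typeS (exists_span hsurj hγ (hc.GG_ne hγ (hs τ hτ).1))
  choose! I hI hI6 using hT
  have hle : ∀ τ ∈ s, ∑ c : Fin 3, (c : ℕ) ≤ ∑ c, I τ c := fun τ hτ =>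
    Finset.sum_le_sum fun c _ => le_of_strictMono (hI τ hτ).mono c
  have hb := main_bound hγ hJ hc P s (fun τ hτ => (hs τ hτ).1) I
    (fun τ => ∑ c, I τ c - ∑ c : Fin 3, (c : ℕ)) hI hI6
    (fun τ hτ => by have := hle τ hτ; omega)
  refine le_trans (Finset.sum_le_sum fun τ hτ => ?_) hb
  refine (hI τ hτ).le_order (contDiff_wP P hγ)
    (m := ∑ c, I τ c - ∑ c : Fin 3, (c : ℕ)) (by have := hle τ hτ; omega) fun j hj => ?_
  have h1 := (hs τ hτ).2 j hj
  have h2 : (fun u => (Matrix.of (fun i c =>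
      Fin.append (fun a : Fin 3 => iteratedDeriv (a : ℕ) γ u) ℓ c i)).det) =
      fun u => C * Dw (wP P γ) (fun c => (c : ℕ)) u := by
    funext u
    have h3 := hdet (fun a : Fin 3 => iteratedDeriv (a : ℕ) γ u)
    refine Eq.trans h3 ?_
    unfold Dw
    simp only [iteratedDeriv_wP _ hγ]
  rw [h2, iteratedDeriv_const_mul_field] at h1
  exact (mul_eq_zero.1 h1).resolve_left hC

end Pool.Agent.Results.MP_5fea31_an.OscThreeSix
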